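import Pool.Agent.AT8.Stmts3

/-!
# Squad AT8, row AV1: the averages for a fixed character
-/

open scoped BigOperators

set_option linter.unusedSectionVars false

noncomputable section

namespace Pool.Agent.PP.T8.H32

open Pool.Agent.Helper51_AWC Pool.Agent.Helper79_WRA Pool.Agent.PP Pool.Agent.PP.KF
open Pool.Agent.PP.K9 Pool.Agent.PP.K9.H97 Pool.Agent.PP.H75 Pool.Agent.PP.T3 Pool.Agent.PP.T2

attribute [local instance] Ideal.Quotient.field

/-- AV1 -/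
theorem av1 (hCOH : CohStmt) (hAVB : AvbStmt) (hRKX : RkxStmt) (hPWU : PwuStmt)
    (hINX : K9.InxStmt) : Av1Stmt := by
  classical
  intro ℓ hℓ M hM1 hM h2 G _ _ N hN e V γ b d c ε hD a k hk hka hexp y hy χ hχ hχN j hj
  have hp : ℓ.Prime := Fact.out
  have hF : GoodF ℓ (FF M) := H50.fld ℓ Fact.out M hM
  have hL := hD.ld
  have hV : IsPGroup ℓ V := hL.tp.1
  have hab := hL.ab
  have hix : ¬ ℓ ∣ ix V γ :=
    hINX ℓ M hM G e hL.blk V hL.tp hab γ hL.gam.supp hL.gam.blk hL.und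
  obtain ⟨f, hfR, hfu, hfN⟩ := hCOH ℓ M hM h2 G N hN e V γ b d c ε hD χ hχ.1
  have hfN := hfN hχN
  obtain ⟨hR1, -⟩ := hRKX ℓ (FF M) hF G e V γ hL hix a k hk hka hexp y hy
  obtain ⟨hWV, -⟩ : Uw (ℓ ^ k) V ≤ V ∧ True := ⟨(hPWU G (ℓ ^ k) V hab).2.1, trivial⟩
  -- the elements `y ^ j w` are regular
  have hreg : ∀ j : ℕ, ¬ ℓ ∣ j → ∀ w ∈ Uw (ℓ ^ k) V, Rg V γ (y ^ j * w) := by
    intro j hj w hw
    exact ((hRKX ℓ (FF M) hF G e V γ hL hix a k hk hka hexp _ (hR1 j hj)).2.1 w hw).1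
  have hav : ∀ j : ℕ, ¬ ℓ ∣ j → av M b d ε (Uw (ℓ ^ k) V) (y ^ j) χ =
      (Nat.card (Uw (ℓ ^ k) V) : ℂ)⁻¹ * ∑ᶠ w : Uw (ℓ ^ k) V, f (y ^ j * w) := by
    intro j hj
    unfold av
    congr 1
    refine finsum_congr fun w => ?_
    rw [hfu _ (hreg j hj w w.2)]
  have hyj : ∀ j : ℕ, y ^ j ∈ V := fun j => V.pow_mem hy.mem j
  have hB := hAVB ℓ M hM G N hN V hV hab f hfR hfN k (Uw (ℓ ^ k) V) rfl (y ^ j) (hyj j)
  refine ⟨?_, ?_, ?_⟩
  · intro j' hjj
    have hj' : ¬ ℓ ∣ j' := fun h => hj ((hjj.dvd_iff (dvd_refl ℓ)).2 h)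
    rw [hav j hj, hav j' hj']
    congr 1
    obtain ⟨k', hk'⟩ := hN.gen j j' hj hjj
    have hEl : El ℓ y := by
      obtain ⟨n, hn⟩ := hV ⟨y, hy.mem⟩
      exact ⟨n, congrArg Subtype.val hn⟩
    have hyk := hk' y hEl
    -- iterate the power map
    have hfK : ∀ m : ℕ, ∀ v ∈ V, f (v ^ N ^ m) = f v := by
      intro m
      induction m with
      | zero => intro v _; simp
      | succ m ih =>
        intro v hv
        rw [pow_succ, pow_mul, hfN _ (V.pow_mem hv _), ih v hv]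
    have hcop : (Nat.card (Uw (ℓ ^ k) V)).Coprime (N ^ k') := by
      have h1 : N.Coprime (Nat.card (Uw (ℓ ^ k) V)) :=
        Nat.Coprime.coprime_dvd_right (Subgroup.card_subgroup_dvd_card _) hN.cop
      exact (Nat.Coprime.pow_left k' h1).symm
    rw [← finsum_comp_equiv (powCoprime hcop) (f := fun w : Uw (ℓ ^ k) V => f (y ^ j' * w))]
    refine finsum_congr fun w => ?_
    have hwV : (w : G) ∈ V := hWV w.2
    have e1 : ((powCoprime hcop w : Uw (ℓ ^ k) V) : G) = (w : G) ^ N ^ k' := rfl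
    rw [e1, ← hyk]
    have hc : Commute (y ^ j) (w : G) := hab _ (hyj j) _ hwV
    rw [← hc.mul_pow, hfK k' _ (V.mul_mem (hyj j) hwV)]
  · rw [hav j hj]
    exact hB.1
  · intro hno h0
    rw [hav j hj] at h0
    have h3 := hB.2
    rw [h0, sub_zero] at h3
    have hr : Rg V γ (y ^ j) := by
      have := hreg j hj 1 (Subgroup.one_mem _)
      rwa [mul_one] at this
    rw [hfu _ hr] at h3
    apply hno _ hr
    rcases hD.sg _ hr with h | h
    · rw [h] at h3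
      simpa using h3
    · rw [h] at h3
      have h4 := neg_mem h3
      have e2 : -(((-1 : ℤ) : ℂ) * vv M b d (y ^ j) χ / (ℓ : ℂ) ^ k) =
          vv M b d (y ^ j) χ / (ℓ : ℂ) ^ k := by
        push_cast
        ring
      rwa [e2] at h4

end Pool.Agent.PP.T8.H32
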